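import Pool.Agent.H.MP_204ba2_pr.C

namespace Pool.Agent.Results.MP_204ba2_pr.Slow

open MeasureTheory Filter Topology Pool.Agent.H.MP_204ba2_pr

noncomputable def state (c : ℤ → (ℕ → ℝ) × (ℕ → ℝ)) : ℕ → ℤ × (ℤ → ℕ)
  | 0 => (0, fun _ => 0)
  | n + 1 =>
    ((state c n).1 + if (c (state c n).1).2 ((state c n).2 (state c n).1) <
        (c (state c n).1).1 ((state c n).2 (state c n).1) then 1 else -1,
      Function.update (state c n).2 (state c n).1 ((state c n).2 (state c n).1 + 1))

theorem result (K : ℝ) : ∃ μ : Measure (ℕ → ℝ), IsProbabilityMeasure μ ∧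
    (∀ᵐ s ∂μ, ∀ n, s n ∈ Set.Icc (0 : ℝ) 1) ∧
    0 < μ {s | ∀ n, 0 < s n} ∧ 0 < μ {s | ∀ n, s n < 1} ∧
    (∀ᵐ s ∂μ, Summable fun n => |2 * s n - 1|) ∧ Integrable (fun s => ∑' n, |2 * s n - 1|) μ ∧
    K < ∫ s, ∑' n, (2 * s n - 1) ∂μ ∧
    ∀ᵐ c ∂(Measure.infinitePi fun _ : ℤ =>
        μ.prod (Measure.infinitePi fun _ : ℕ => volume.restrict (Set.Icc (0 : ℝ) 1))),
      Tendsto (fun n : ℕ => ((state c n).1 : ℝ) / n) atTop (𝓝 0) := by
  obtain ⟨B, hB⟩ := exists_nat_gt (max K 0)
  have h1 : 1 ≤ B := by exact_mod_cast (le_max_right _ _).trans_lt hB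
  have hs : Measurable (stack B) := measurable_from_top
  have pos : ∀ (k : ℕ) (E : Set (ℕ → ℝ)), stack B k ∈ E → 0 < ν B E := fun k E h => by
    refine lt_of_lt_of_le ?_ (measure_mono (Set.singleton_subset_iff.mpr h))
    rw [ν, Measure.map_apply hs (measurableSet_singleton _)]
    refine lt_of_lt_of_le ?_ (measure_mono (s := {k}) (by simp))
    rw [ProbabilityTheory.geometricMeasure_singleton pp_ne, ENNReal.ofReal_pos]
    norm_num [pp]
  have ae : ∀ p : (ℕ → ℝ) → Prop, (∀ i, p (stack B i)) → ∀ᵐ s ∂ν B, p s := fun p h => by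
    have : ∀ᵐ s ∂ν B, s ∈ Set.range (stack B) := (ae_map_iff hs.aemeasurable
      (Set.countable_range _).measurableSet).mpr (ae_of_all _ fun i => ⟨i, rfl⟩)
    filter_upwards [this] with s ⟨i, hi⟩ using hi ▸ h i
  refine ⟨ν B, inferInstance, ae _ fun i n => ?_, pos 0 _ fun n => ?_, pos 1 _ fun n => ?_,
    ae _ fun i => (stack_abs B i).summable, ?_, ?_, ?_⟩
  · unfold stack; split_ifs <;> norm_num
  · simp only [stack, Even.zero, if_true]; split_ifs <;> norm_num
  · simp only [stack, Nat.not_even_one, if_false]; split_ifs <;> norm_num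
  · rw [ν, integrable_map_measure (Measurable.tsum fun n => by fun_prop).aestronglyMeasurable
      hs.aemeasurable]
    exact (a_int B).congr (ae_of_all _ fun i => (stack_abs B i).tsum_eq.symm)
  · rw [ν, integral_map hs.aemeasurable (Measurable.tsum fun n => by fun_prop).aestronglyMeasurable]
    simp only [(stack_sum B _).tsum_eq]
    exact ((le_max_left _ _).trans_lt hB).trans_le (z_val B)
  · filter_upwards [both h1] with c hc
    refine hc (fun n => (state c n).1) (fun n => (state c n).2)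
      ⟨rfl, fun _ => rfl, fun n h => ?_, fun n h => ?_, fun n => ?_, fun n x h => ?_⟩
    · simp only [state, if_pos h]
    · simp only [state, if_neg h]; ring
    · simp [state]
    · simp [state, h]

end Pool.Agent.Results.MP_204ba2_pr.Slow
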